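import Pool.Agent.Helper835.KS.Sym
import Pool.Agent.Helper835.KS.CH
import Pool.Agent.Helper835.KS.Triv

/-!
# The question is independent of ZFC

`Projective A Z` (from `FamilyEquivalence`): the subset `Z` of `E` is projective over the sequence
`A` of subsets of `E`; `HasClass A 1 Z`: it is projective of class `1` over `A`.

The sentences of the forcing language of a preordered set `P` are those of `Helper292.ForceCH`.
-/

set_option autoImplicit false

open Set Cardinal
open Pool.Agent.Helper292.ForceCH
open Pool.Agent.Results.MP_17aaef_lc.FamilyEquivalence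
open Pool.Agent.Helper835.KS

universe u

namespace Pool.Agent.Results.MP_17aaef_lc.Independence

/-- `Yes E`: for every sequence `A` of subsets of `E` there is a sequence `B` of subsets of `E`
such that every set projective over `A` belongs to the sigma-algebra generated by `B`. -/
def Yes (E : Type u) : Prop :=
  ∀ A : ℕ → Set E, ∃ B : ℕ → Set E, ∀ Z : Set E, Projective A Z →
    @MeasurableSet E (MeasurableSpace.generateFrom (Set.range B)) Z

/-- `No E`: there is a sequence `A` of subsets of `E` such that no countably generated
sigma-algebra on `E` contains all the sets projective of class `1` over `A`. -/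
def No (E : Type u) : Prop :=
  ∃ A : ℕ → Set E, ∀ B : ℕ → Set E, ∃ Z : Set E, HasClass A 1 Z ∧
    ¬ @MeasurableSet E (MeasurableSpace.generateFrom (Set.range B)) Z

/-- (1) The continuum hypothesis implies the positive answer, and (2) it can be forced.
(3) The symmetry principle (for some linear order `K`) implies the negative answer, already for
class one, and (4) it can be forced: some forcing notion forces the symmetry principle for some
ground model linear order `K`. (5) Sanity check: for the one-point forcing notion the sentence
`SymmetryHolds` of the forcing language says `Symmetry`. (6) `No` is stronger than the negation of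
`Yes`. -/
theorem result :
    ((𝔠 : Cardinal.{0}) = ℵ₁ → ∀ E : Type u, #E = 𝔠 → Yes E) ∧
    (∃ (P : Type) (_ : Preorder P), Nonempty P ∧
      ∀ p : P, p ∈ OmegaOnePreserved P ∧ p ∈ CHHolds P) ∧
    (∀ (K : Type) [LinearOrder K], Symmetry K → ∀ E : Type u, #E = 𝔠 → No E) ∧
    (∃ (P : Type) (_ : Preorder P) (K : Type) (_ : LinearOrder K), Nonempty P ∧
      ∀ p : P, p ∈ SymmetryHolds P K) ∧
    (∀ (K : Type) [LinearOrder K], (∀ p : Unit, p ∈ SymmetryHolds Unit K) ↔ Symmetry K) ∧
    (∀ E : Type u, No E → ¬ Yes E) := by
  refine ⟨?_, ?_, ?_, ?_, fun K _ => trivial_forcing K, ?_⟩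
  · intro hCH E hE
    exact ((FamilyEquivalence.result E hE).out 0 2).2 (coded_of_CH hCH E hE)
  · obtain ⟨P, hP, hne, h⟩ := exists_forcing
    exact ⟨P, hP, hne, fun p => ⟨(h p).1, (h p).2.2⟩⟩
  · intro K _ hK E hE
    by_contra hno
    refine not_coded hK E hE (((FamilyEquivalence.result E hE).out 1 2).1 ?_)
    intro A
    unfold No at hno
    push Not at hno
    obtain ⟨B, hB⟩ := hno A
    exact ⟨B, hB⟩
  · have hK : 𝔠 < #((Order.succ (𝔠 : Cardinal.{0})).ord.ToType) := by
      rw [Cardinal.mk_ord_toType]
      exact Order.lt_succ _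
    exact ⟨Cond (Order.succ (𝔠 : Cardinal.{0})).ord.ToType, inferInstance,
      (Order.succ (𝔠 : Cardinal.{0})).ord.ToType, inferInstance, inferInstance,
      fun p => symmetryHolds hK p⟩
  · rintro E ⟨A, hA⟩ hyes
    obtain ⟨B, hB⟩ := hyes A
    obtain ⟨Z, hZ, hZB⟩ := hA B
    exact hZB (hB Z ⟨1, le_rfl, hZ⟩)

end Pool.Agent.Results.MP_17aaef_lc.Independence
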